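import Pool.Agent.Lib.MP_7d3540_nt.Pairs
import Pool.Agent.Lib.MP_3efbeb_nt.T.B
import Pool.Agent.Lib.PntAP.Main

/-!
# MP_7d3540_nt: the numbers `i ≡ 1 (mod 4)` without prime factor `≤ z`
-/

set_option autoImplicit false

namespace Pool.Agent.MP7d3540

open Finset Filter Topology
open scoped Classical
open Pool.Agent.Lib.MP391708.QPA (PB Rough rInd Wp SpecFL specWMER)
open Pool.Agent.Lib.MP391708.QPA.FL
open Pool.Agent.Lib.MP_3efbeb_nt.SV
open Pool.Agent.Lib.MP_3efbeb_nt.SV.SieveM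

/-- `i > 1`, `i ≡ 1 (mod 4)`, no prime factor `≤ z` -/
def TT (z : ℝ) (i : ℕ) : Prop := 1 < i ∧ i % 4 = 1 ∧ ∀ p : ℕ, p.Prime → p ∣ i → z < (p : ℝ)

/-- Primes `1 mod 4`. -/
theorem primes1 : ∃ c : ℝ, 0 < c ∧ ∀ᶠ X : ℕ in atTop,
    c * (X / Real.log X) ≤ (((Icc 1 X).filter (fun p : ℕ => p.Prime ∧ p % 4 = 1)).card : ℝ) := by
  have : NeZero (4 : ℕ) := ⟨by norm_num⟩
  have h := (Pool.Agent.Lib.PntAP.pi_ap (q := 4) (a := 1) isUnit_one).comp
    tendsto_natCast_atTop_atTop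
  have ht : (Nat.totient 4 : ℝ) = 2 := by
    have : Nat.totient 4 = 2 := by decide
    rw [this]
    norm_num
  rw [ht] at h
  have h1 := h.eventually_const_le (by norm_num : (1 / 4 : ℝ) < 1 / 2)
  refine ⟨1 / 4, by norm_num, ?_⟩
  filter_upwards [h1, eventually_ge_atTop 3] with X hX hX3
  have hX3' : (3 : ℝ) ≤ X := by exact_mod_cast hX3
  have hlog : 0 < Real.log X := Real.log_pos (by linarith)
  have hX0 : (0 : ℝ) < X := by linarith
  simp only [Function.comp] at hX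
  rw [le_div_iff₀ hX0] at hX
  have e1 : Pool.Agent.Lib.PntAP.piAP (1 : ZMod 4) (X : ℝ) =
      (((Icc 1 X).filter (fun p : ℕ => p.Prime ∧ p % 4 = 1)).card : ℝ) := by
    unfold Pool.Agent.Lib.PntAP.piAP
    rw [Nat.floor_natCast]
    congr 2
    refine filter_congr (fun p _ => ?_)
    have : ((p : ZMod 4) = 1) ↔ p % 4 = 1 := by
      have h2 := ZMod.natCast_eq_natCast_iff' p 1 4
      rw [Nat.cast_one] at h2
      rw [h2]
    rw [this]
  rw [e1] at hX
  rw [← mul_div_assoc, div_le_iff₀ hlog]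
  exact hX

namespace IdxM

def fa : Fin 1 → ℤ := ![4]
def fb : Fin 1 → ℤ := ![1]

lemma form (y : ℤ) : ∏ i, (fa i * y + fb i) = 4 * y + 1 := by
  simp [fa, fb]

lemma adm {p : ℕ} (hp : p.Prime) : ∃ y : ℤ, ¬ (p : ℤ) ∣ ∏ i, (fa i * y + fb i) := by
  refine ⟨0, ?_⟩
  rw [form]
  intro h
  have : p ∣ 1 := by exact_mod_cast h
  exact hp.one_lt.ne' (Nat.dvd_one.1 this)

noncomputable def gg (p : ℕ) : ℝ := if p.Prime then (nu fa fb p : ℝ) / p else 0

lemma gg_bd {p : ℕ} (hp : p.Prime) : 0 ≤ gg p ∧ gg p ≤ 1 / (p : ℝ) ∧ gg p ≤ 1 / 2 := by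
  obtain ⟨h1, h2⟩ := nu_prime fa fb hp (adm hp)
  have hp0 : (0 : ℝ) < p := by exact_mod_cast hp.pos
  have hp2 : (2 : ℝ) ≤ p := by exact_mod_cast hp.two_le
  have h1' : (nu fa fb p : ℝ) ≤ 1 := by exact_mod_cast h1
  unfold gg
  rw [if_pos hp]
  have h3 : (nu fa fb p : ℝ) / p ≤ 1 / p := div_le_div_of_nonneg_right h1' hp0.le
  exact ⟨by positivity, h3, h3.trans (one_div_le_one_div_of_le (by norm_num) hp2)⟩

/-- the sieve, before the choice of `z` -/
lemma sieve : ∃ (E : ℕ) (c : ℝ), 0 < E ∧ 0 < c ∧ ∀ (Y : ℕ) (z : ℝ), 2 ≤ z →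
    c * (Y / Real.log z) - 2 * (1 + Real.log z) * (z ^ E) ^ 2 ≤
      (((Icc 1 Y).filter (fun y => Rough z (4 * y + 1))).card : ℝ) := by
  obtain ⟨c, hc, hW⟩ := Pool.Agent.Lib.MP3efbeb.T.BM.wp_lower
  obtain ⟨b, hb⟩ : ∃ b : ℕ, Mk 1 * Real.exp (-(b : ℝ)) ≤ 1 / 2 := by
    have hM : 0 < Mk 1 := Real.exp_pos _
    obtain ⟨b, hb⟩ := exists_nat_ge (2 * Mk 1)
    refine ⟨b, ?_⟩
    rw [Real.exp_neg]
    have h1 : 2 * Mk 1 ≤ Real.exp b := hb.trans (by linarith [Real.add_one_le_exp (b : ℝ)])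
    rw [mul_inv_le_iff₀ (Real.exp_pos _)]
    linarith
  refine ⟨8 * b + 16, c / 2, by omega, by positivity, fun Y z hz => ?_⟩
  have hz0 : (0 : ℝ) < z := by linarith
  have hlz : 0 < Real.log z := Real.log_pos (by linarith)
  set E := 8 * b + 16 with hE
  set v : ℕ → ℕ := fun y => (∏ i, (fa i * (y : ℤ) + fb i)).natAbs with hv
  have hv2 : ∀ y, v y = 4 * y + 1 := by
    intro y
    rw [hv]
    simp only
    rw [form]
    have : (4 * (y : ℤ) + 1) = ((4 * y + 1 : ℕ) : ℤ) := by push_cast; ring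
    rw [this, Int.natAbs_natCast]
  have hgD : Dens 1 gg := by
    intro p hp
    obtain ⟨h1, h2, h3⟩ := gg_bd hp
    refine ⟨h1, ?_, ?_⟩
    · rw [Nat.cast_one]
      exact h2
    · rw [Nat.cast_one]
      norm_num at h3 ⊢
      exact h3
  have hfl := flk 1 b hb z hz (Icc 1 Y) v (fun _ => 1) Y gg (Nat.cast_nonneg _)
    (fun _ _ => zero_le_one) hgD
  have hrem : ∑ δ ∈ (Icc 1 ⌊z ^ E⌋₊).filter
      (fun δ => Squarefree δ ∧ ∀ p : ℕ, p.Prime → p ∣ δ → (p : ℝ) < z),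
      |(∑ i ∈ (Icc 1 Y).filter (fun i => δ ∣ v i), (1 : ℝ)) -
        Y * ∏ p ∈ δ.primeFactors, gg p| ≤ (z ^ E) ^ 2 := by
    have h1 : ∀ δ ∈ (Icc 1 ⌊z ^ E⌋₊).filter
        (fun δ => Squarefree δ ∧ ∀ p : ℕ, p.Prime → p ∣ δ → (p : ℝ) < z),
        |(∑ i ∈ (Icc 1 Y).filter (fun i => δ ∣ v i), (1 : ℝ)) -
          Y * ∏ p ∈ δ.primeFactors, gg p| ≤ z ^ E := by
      intro δ hδ
      rw [mem_filter, mem_Icc] at hδ
      have e1 : ∏ p ∈ δ.primeFactors, gg p = (nu fa fb δ : ℝ) / δ := by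
        have e0 : ∏ p ∈ δ.primeFactors, gg p = ∏ p ∈ δ.primeFactors, (nu fa fb p : ℝ) / p := by
          refine prod_congr rfl (fun p hp => ?_)
          unfold gg
          rw [if_pos (Nat.prime_of_mem_primeFactors hp)]
        rw [e0, prod_div_distrib, nu_squarefree fa fb hδ.2.1]
        push_cast
        congr 1
        have h9 := Nat.prod_primeFactors_of_squarefree hδ.2.1
        rw [← Nat.cast_prod, h9]
      have e2 : (Icc 1 Y).filter (fun i => δ ∣ v i) = (Icc 1 Y).filter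
          (fun y : ℕ => (δ : ℤ) ∣ ∏ i, (fa i * (y : ℤ) + fb i)) := by
        refine filter_congr (fun y _ => ?_)
        rw [hv]
        exact Int.natCast_dvd.symm
      rw [sum_const, nsmul_eq_mul, mul_one, e1, e2]
      refine (card_roots fa fb δ Y (by omega)).trans ?_
      exact (Nat.le_floor_iff (by positivity)).1 hδ.1.2
    refine (sum_le_card_nsmul _ _ _ h1).trans ?_
    rw [nsmul_eq_mul, sq]
    refine mul_le_mul_of_nonneg_right ?_ (by positivity)
    have h2 := card_filter_le (Icc 1 ⌊z ^ E⌋₊)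
      (fun δ => Squarefree δ ∧ ∀ p : ℕ, p.Prime → p ∣ δ → (p : ℝ) < z)
    rw [Nat.card_Icc, Nat.add_sub_cancel] at h2
    exact (Nat.cast_le.2 h2).trans (Nat.floor_le (by positivity))
  have hprod : c / Real.log z ≤ ∏ p ∈ PB z, (1 - gg p) := by
    refine (hW z hz).trans ?_
    unfold Wp
    refine prod_le_prod ?_ ?_
    · intro p hp
      have h4 : (2 : ℝ) ≤ p := by exact_mod_cast (mem_PB.1 hp).1.two_le
      have h5 : 1 / (p : ℝ) ≤ 1 / 2 := one_div_le_one_div_of_le (by norm_num) h4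
      linarith
    · intro p hp
      have := (gg_bd (mem_PB.1 hp).1).2.1
      linarith
  have hcnt : ∑ i ∈ Icc 1 Y, (1 : ℝ) * rInd z (v i) =
      (((Icc 1 Y).filter (fun y => Rough z (4 * y + 1))).card : ℝ) := by
    rw [card_filter]
    push_cast
    refine sum_congr rfl (fun i _ => ?_)
    rw [one_mul, hv2 i]
    rfl
  rw [hcnt] at hfl
  refine le_trans ?_ hfl
  have hY0 : (0 : ℝ) ≤ Y := Nat.cast_nonneg _
  have h5 : 1 / 2 * (Y : ℝ) * (c / Real.log z) ≤ 1 / 2 * Y * ∏ p ∈ PB z, (1 - gg p) :=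
    mul_le_mul_of_nonneg_left hprod (by positivity)
  have h6 := mul_le_mul_of_nonneg_left hrem (by positivity : 0 ≤ 2 * (1 + Real.log z))
  have h7 : c / 2 * (Y / Real.log z) = 1 / 2 * (Y : ℝ) * (c / Real.log z) := by ring
  rw [h7]
  linarith

end IdxM

open IdxM in
/-- The number of `i ≤ Y` with `i > 1`, `i ≡ 1 (mod 4)`, without prime factor `≤ z`. -/
theorem idx : ∃ c : ℝ, 0 < c ∧ ∀ᶠ Y : ℕ in atTop, ∀ z : ℝ, 2 ≤ z → z ≤ (Y : ℝ) ^ (3 / 4 : ℝ) →
    c * (Y / Real.log z) ≤ (((Icc 1 Y).filter (TT z)).card : ℝ) := by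
  obtain ⟨E, c0, hE, hc0, hsv⟩ := sieve
  obtain ⟨c1, hc1, hpr⟩ := primes1
  have hE0 : (0 : ℝ) < E := by exact_mod_cast hE
  have ev1 : ∀ᶠ Y : ℕ in atTop, ((Y : ℝ) ^ (1 / 4 : ℝ) + 1 + 256 / c0 * (1 + Real.log Y) *
      (Y : ℝ) ^ (1 / 2 : ℝ)) * Real.log Y ^ 2 ≤ Y :=
    tendsto_natCast_atTop_atTop.eventually (PairsM.small_terms (256 / c0) (by positivity))
  have ev2 : ∀ᶠ Y : ℕ in atTop, Real.log Y ≤ c1 / 2 * (Y : ℝ) ^ (1 / 4 : ℝ) := by
    have h1 := tendsto_natCast_atTop_atTop (R := ℝ) |>.eventually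
      ((isLittleO_log_rpow_atTop (by norm_num : (0 : ℝ) < 1 / 4)).bound
        (by positivity : (0 : ℝ) < c1 / 2))
    filter_upwards [h1, eventually_ge_atTop 1] with Y hY hY1
    have hY1' : (1 : ℝ) ≤ Y := by exact_mod_cast hY1
    rw [Real.norm_eq_abs, Real.norm_eq_abs, abs_of_nonneg (Real.log_nonneg hY1'),
      abs_of_nonneg (Real.rpow_nonneg (by linarith) _)] at hY
    exact hY
  refine ⟨min (c0 / 32) (c1 / 2 / (16 * E)), lt_min (by positivity) (by positivity), ?_⟩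
  filter_upwards [ev1, ev2, hpr, eventually_ge_atTop 10] with Y h1 h2 h3 h10 z hz hzY
  have hY10 : (10 : ℝ) ≤ Y := by exact_mod_cast h10
  have hY0 : (0 : ℝ) < Y := by linarith
  have hz0 : 0 < z := by linarith
  have hlz : 0 < Real.log z := Real.log_pos (by linarith)
  have hlY1 : 1 ≤ Real.log Y := by
    rw [Real.le_log_iff_exp_le hY0]
    have := Real.exp_one_lt_d9
    linarith
  have hl2z : Real.log (2 * z) ≤ 2 * Real.log z := by
    rw [Real.log_mul (by norm_num) hz0.ne']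
    have := Real.log_le_log (by norm_num) hz
    linarith
  have hl2z0 : 0 < Real.log (2 * z) := Real.log_pos (by linarith)
  have hlzY : Real.log z ≤ Real.log Y := by
    refine (Real.log_le_log hz0 hzY).trans ?_
    rw [Real.log_rpow hY0]
    linarith
  have hYz : 0 ≤ (Y : ℝ) / Real.log z := by positivity
  rcases le_or_gt (2 * z) ((Y : ℝ) ^ (1 / (8 * E) : ℝ)) with hs | hs
  · -- small `z`
    refine (mul_le_mul_of_nonneg_right (min_le_left _ _) hYz).trans ?_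
    have h4 := hsv ((Y - 1) / 4) (2 * z) (by linarith)
    have h5 : (((Icc 1 ((Y - 1) / 4)).filter (fun y => Rough (2 * z) (4 * y + 1))).card : ℝ) ≤
        (((Icc 1 Y).filter (TT z)).card : ℝ) := by
      have : ((Icc 1 ((Y - 1) / 4)).filter (fun y => Rough (2 * z) (4 * y + 1))).card ≤
          ((Icc 1 Y).filter (TT z)).card := by
        refine card_le_card_of_injOn (fun y => 4 * y + 1) ?_ ?_
        · intro y hy
          rw [mem_coe, mem_filter, mem_Icc] at hy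
          rw [mem_coe, mem_filter, mem_Icc]
          refine ⟨⟨?_, ?_⟩, ?_, ?_, ?_⟩
          · show 1 ≤ 4 * y + 1
            omega
          · show 4 * y + 1 ≤ Y
            omega
          · show 1 < 4 * y + 1
            omega
          · show (4 * y + 1) % 4 = 1
            omega
          intro p hp hpd
          have := hy.2 p hp hpd
          linarith
        · intro a _ b _ hab
          simp only at hab
          omega
      exact_mod_cast this
    refine le_trans ?_ h5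
    refine le_trans ?_ h4
    have e1 : (Y : ℝ) / 8 ≤ (((Y - 1) / 4 : ℕ) : ℝ) := by
      have : Y ≤ 8 * ((Y - 1) / 4) := by omega
      have h6 : (Y : ℝ) ≤ 8 * (((Y - 1) / 4 : ℕ) : ℝ) := by exact_mod_cast this
      linarith
    have e2 : (Y : ℝ) / 8 / (2 * Real.log z) ≤ (((Y - 1) / 4 : ℕ) : ℝ) / Real.log (2 * z) :=
      div_le_div₀ (by positivity) e1 hl2z0 hl2z
    have e3 : c0 * ((Y : ℝ) / 8 / (2 * Real.log z)) = c0 / 16 * (Y / Real.log z) := by
      field_simp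
      ring
    have e4 : ((2 * z) ^ E) ^ 2 ≤ (Y : ℝ) ^ (1 / 4 : ℝ) := by
      have h7 : (2 * z) ^ E ≤ ((Y : ℝ) ^ (1 / (8 * E) : ℝ)) ^ E :=
        pow_le_pow_left₀ (by positivity) hs E
      have h8 : ((Y : ℝ) ^ (1 / (8 * E) : ℝ)) ^ E = (Y : ℝ) ^ (1 / 8 : ℝ) := by
        rw [← Real.rpow_natCast, ← Real.rpow_mul hY0.le]
        congr 1
        field_simp
      rw [h8] at h7
      have h9 : ((Y : ℝ) ^ (1 / 8 : ℝ)) ^ 2 = (Y : ℝ) ^ (1 / 4 : ℝ) := by
        rw [← Real.rpow_natCast, ← Real.rpow_mul hY0.le]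
        norm_num
      rw [← h9]
      exact pow_le_pow_left₀ (by positivity) h7 2
    have e5 : Real.log (2 * z) ≤ 2 * Real.log Y := by linarith
    have e6 : (Y : ℝ) ^ (1 / 4 : ℝ) ≤ (Y : ℝ) ^ (1 / 2 : ℝ) :=
      Real.rpow_le_rpow_of_exponent_le (by linarith) (by norm_num)
    have e7 : 2 * (1 + Real.log (2 * z)) * ((2 * z) ^ E) ^ 2 ≤
        4 * (1 + Real.log Y) * (Y : ℝ) ^ (1 / 2 : ℝ) := by
      refine mul_le_mul (by linarith) (e4.trans e6) (by positivity) (by positivity)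
    -- `4 (1 + log Y) Y^(1/2) ≤ (c0/16) Y/log Y`
    have e8 : 4 * (1 + Real.log Y) * (Y : ℝ) ^ (1 / 2 : ℝ) ≤ c0 / 32 * (Y / Real.log z) := by
      have h9 : 4 * (1 + Real.log Y) * (Y : ℝ) ^ (1 / 2 : ℝ) ≤ c0 / 32 * (Y / Real.log Y) := by
        rw [← mul_div_assoc, le_div_iff₀ (by linarith)]
        have h11 : 256 / c0 * (1 + Real.log Y) * (Y : ℝ) ^ (1 / 2 : ℝ) * Real.log Y ^ 2 ≤ Y := by
          refine le_trans (mul_le_mul_of_nonneg_right ?_ (by positivity)) h1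
          have : 0 ≤ (Y : ℝ) ^ (1 / 4 : ℝ) := by positivity
          linarith
        have h12 : c0 / 256 * (256 / c0 * (1 + Real.log Y) * (Y : ℝ) ^ (1 / 2 : ℝ) *
            Real.log Y ^ 2) = (1 + Real.log Y) * (Y : ℝ) ^ (1 / 2 : ℝ) * Real.log Y ^ 2 := by
          field_simp
        have h13 := mul_le_mul_of_nonneg_left h11 (by positivity : 0 ≤ c0 / 256)
        rw [h12] at h13
        have h14 : (1 + Real.log Y) * (Y : ℝ) ^ (1 / 2 : ℝ) * Real.log Y ≤
            (1 + Real.log Y) * (Y : ℝ) ^ (1 / 2 : ℝ) * Real.log Y ^ 2 := by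
          refine mul_le_mul_of_nonneg_left ?_ (by positivity)
          nlinarith
        have h15 : 0 ≤ c0 * (Y : ℝ) := by positivity
        linarith
      refine h9.trans (mul_le_mul_of_nonneg_left ?_ (by positivity))
      exact div_le_div_of_nonneg_left hY0.le hlz hlzY
    have e9 := mul_le_mul_of_nonneg_left e2 hc0.le
    rw [e3] at e9
    linarith
  · -- large `z`
    refine (mul_le_mul_of_nonneg_right (min_le_right _ _) hYz).trans ?_
    have h4 : Real.log Y ≤ 16 * E * Real.log z := by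
      have h5 := Real.log_le_log (by positivity) hs.le
      rw [Real.log_rpow hY0] at h5
      have h6 : 1 / (8 * (E : ℝ)) * Real.log Y ≤ 2 * Real.log z := h5.trans hl2z
      rw [div_mul_eq_mul_div, one_mul, div_le_iff₀ (by positivity)] at h6
      linarith
    have h5 : ((((Icc 1 Y).filter (fun p : ℕ => p.Prime ∧ p % 4 = 1)).card : ℕ) : ℝ) ≤
        (((Icc 1 Y).filter (TT z)).card : ℝ) + z := by
      have h6 : (Icc 1 Y).filter (fun p : ℕ => p.Prime ∧ p % 4 = 1) ⊆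
          (Icc 1 Y).filter (TT z) ∪ Icc 1 ⌊z⌋₊ := by
        intro p hp
        rw [mem_filter, mem_Icc] at hp
        rw [mem_union, mem_filter, mem_Icc, mem_Icc]
        rcases le_or_gt (p : ℝ) z with h7 | h7
        · exact Or.inr ⟨hp.1.1, Nat.le_floor h7⟩
        · refine Or.inl ⟨hp.1, hp.2.1.one_lt, hp.2.2, ?_⟩
          intro q hq hqp
          rw [(Nat.prime_dvd_prime_iff_eq hq hp.2.1).1 hqp]
          exact h7
      have h7 := (card_le_card h6).trans (card_union_le _ _)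
      rw [Nat.card_Icc, Nat.add_sub_cancel] at h7
      have h8 : ((((Icc 1 Y).filter (fun p : ℕ => p.Prime ∧ p % 4 = 1)).card : ℕ) : ℝ) ≤
          (((Icc 1 Y).filter (TT z)).card : ℝ) + ((⌊z⌋₊ : ℕ) : ℝ) := by exact_mod_cast h7
      linarith [Nat.floor_le hz0.le]
    have h6 : (Y : ℝ) ^ (3 / 4 : ℝ) ≤ c1 / 2 * (Y / Real.log Y) := by
      rw [← mul_div_assoc, le_div_iff₀ (by linarith)]
      have h7 : (Y : ℝ) ^ (3 / 4 : ℝ) * (c1 / 2 * (Y : ℝ) ^ (1 / 4 : ℝ)) = c1 / 2 * Y := by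
        have : (Y : ℝ) ^ (3 / 4 : ℝ) * (Y : ℝ) ^ (1 / 4 : ℝ) = Y := by
          rw [← Real.rpow_add hY0]
          norm_num
        linear_combination (c1 / 2) * this
      rw [← h7]
      exact mul_le_mul_of_nonneg_left h2 (by positivity)
    have h7 : c1 / 2 / (16 * E) * (Y / Real.log z) ≤ c1 / 2 * (Y / Real.log Y) := by
      have e1 : c1 / 2 / (16 * E) * (Y / Real.log z) = c1 / 2 * (Y / (16 * E * Real.log z)) := by
        field_simp
      rw [e1]
      refine mul_le_mul_of_nonneg_left ?_ (by positivity)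
      exact div_le_div_of_nonneg_left hY0.le (by linarith) h4
    linarith

end Pool.Agent.MP7d3540
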