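import Pool.Agent.Lib.MP_7d3540_nt.Gaps
import Pool.Agent.Lib.MP_7d3540_nt.Idx

/-!
# MP_7d3540_nt: the count of the `n ≤ N` with `g(k n) ∈ T`
-/

set_option autoImplicit false
set_option maxHeartbeats 4000000

namespace Pool.Agent.MP7d3540

open Finset Filter Topology
open scoped Classical

namespace CombM

/-- the norms `u ≤ X` with `g u ∈ T`, followed by a gap of length at least `h` -/
noncomputable def AA (z : ℝ) (X h : ℕ) : Finset ℕ :=
  (range (X + 1)).filter (fun u => NR u ∧ TT z (g u) ∧ ¬ ∃ v, u < v ∧ v < u + h ∧ NR v)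

lemma comb (z : ℝ) {k N X h : ℕ} (hk : 1 ≤ k) (hX : 2 * X ≤ k * N) (hh : h ≤ X) :
    (AA z X h).card * (h / k) ≤ ((Icc 1 N).filter (fun n => TT z (g (k * n)))).card := by
  rw [← card_range (h / k), ← card_product]
  have key : ∀ u j : ℕ, u ∈ AA z X h → j < h / k →
      u ≤ k * ((u + k - 1) / k + j) ∧ k * ((u + k - 1) / k + j) < u + h := by
    intro u j _ hj
    have e1 : k * ((u + k - 1) / k) ≤ u + k - 1 := Nat.mul_div_le _ _
    have e2 : u + k - 1 < k * ((u + k - 1) / k + 1) := Nat.lt_mul_div_succ _ (by omega)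
    have e3 : k * (j + 1) ≤ h := (Nat.mul_le_mul_left k hj).trans (Nat.mul_div_le h k)
    rw [mul_add, mul_one] at e2 e3
    rw [mul_add]
    omega
  refine card_le_card_of_injOn (fun x => (x.1 + k - 1) / k + x.2) ?_ ?_
  · rintro ⟨u, j⟩ hx
    rw [mem_coe, mem_product, mem_range] at hx
    obtain ⟨hu, hj⟩ := hx
    obtain ⟨k1, k2⟩ := key u j hu hj
    simp only at hu hj
    rw [AA, mem_filter, mem_range] at hu
    obtain ⟨huX, hu1, hu2, hu3⟩ := hu
    have h2 : 2 ≤ u := by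
      rcases NR_mod hu1 with h | ⟨h, _⟩ <;> omega
    rw [mem_coe, mem_filter, mem_Icc]
    simp only
    refine ⟨⟨?_, ?_⟩, ?_⟩
    · rcases Nat.eq_zero_or_pos ((u + k - 1) / k + j) with h0 | h0
      · rw [h0, mul_zero] at k1
        omega
      · exact h0
    · have h3 : k * ((u + k - 1) / k + j) < k * N := by omega
      exact (Nat.lt_of_mul_lt_mul_left h3).le
    · rw [g_const k1]
      · exact hu2
      · intro v hv1 hv2 hv3
        exact hu3 ⟨v, hv1, by omega, hv3⟩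
  · rintro ⟨u, j⟩ hx ⟨u', j'⟩ hx' he
    rw [mem_coe, mem_product, mem_range] at hx hx'
    obtain ⟨hu, hj⟩ := hx
    obtain ⟨hu', hj'⟩ := hx'
    obtain ⟨k1, k2⟩ := key u j hu hj
    obtain ⟨k1', k2'⟩ := key u' j' hu' hj'
    simp only at he hu hj hu' hj'
    rw [he] at k1 k2
    rw [AA, mem_filter, mem_range] at hu hu'
    have huu : u = u' := by
      rcases lt_trichotomy u u' with h1 | h1 | h1
      · exact absurd ⟨u', h1, by omega, hu'.2.1⟩ hu.2.2.2
      · exact h1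
      · exact absurd ⟨u, h1, by omega, hu.2.1⟩ hu'.2.2.2
    subst huu
    have : j = j' := by omega
    rw [this]

lemma cardA (z : ℝ) (X h : ℕ) : ((Icc 1 (g X)).filter (TT z)).card ≤
    (AA z X h).card +
      ((range (X + 1)).filter (fun u => NR u ∧ ∃ v, u < v ∧ v < u + h ∧ NR v)).card := by
  refine (index_card (TT z) X).trans ((card_le_card ?_).trans (card_union_le _ _))
  intro u hu
  rw [mem_filter] at hu
  rw [mem_union, AA, mem_filter, mem_filter]
  by_cases h1 : ∃ v, u < v ∧ v < u + h ∧ NR v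
  · exact Or.inr ⟨hu.1, hu.2.1, h1⟩
  · exact Or.inl ⟨hu.1, hu.2.1, hu.2.2, h1⟩

lemma sg4 (X : ℕ) :
    ((range (X + 1)).filter (fun u => NR u ∧ ∃ v, u < v ∧ v < u + 4 ∧ NR v)).card ≤ 1 := by
  refine (card_le_card (t := {2}) ?_).trans (by simp)
  intro u hu
  rw [mem_filter] at hu
  obtain ⟨-, hu1, v, h1, h2, h3⟩ := hu
  rw [mem_singleton]
  rcases NR_mod hu1 with h | ⟨h, h'⟩
  · exact h
  · rcases NR_mod h3 with h4 | ⟨h4, h4'⟩ <;> omega

/-- the number of norms -/
lemma g_ge : ∃ c : ℝ, 0 < c ∧ ∀ᶠ X : ℕ in atTop, c * (X / Real.log X) ≤ (g X : ℝ) := by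
  obtain ⟨c, hc, h⟩ := primes1
  refine ⟨c, hc, ?_⟩
  filter_upwards [h] with X hX
  refine hX.trans ?_
  have : ((Icc 1 X).filter (fun p : ℕ => p.Prime ∧ p % 4 = 1)).card ≤ g X := by
    rw [g_eq]
    refine card_le_card ?_
    intro p hp
    rw [mem_filter, mem_Icc] at hp
    rw [mem_filter, mem_range]
    exact ⟨by omega, Or.inr (Or.inl hp.2)⟩
  exact_mod_cast this

end CombM

open CombM in
/-- The main estimate. -/
theorem main : ∃ c : ℝ, 0 < c ∧ ∀ᶠ N : ℕ in atTop, ∀ z : ℝ, 2 ≤ z → z ≤ (N : ℝ) ^ (3 / 5 : ℝ) →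
    ∀ k : ℕ, 1 ≤ k → (k ≤ 4 ∨ (k : ℝ) * Real.log z ≤ c * Real.log N) →
    c * (N / Real.log z ^ 2) ≤ (((Icc 1 N).filter (fun n => TT z (g (k * n)))).card : ℝ) := by
  obtain ⟨c1, hc1, hidx⟩ := idx
  obtain ⟨c3, hc3, hg⟩ := g_ge
  obtain ⟨C4, hC4, hgap⟩ := gaps
  set a : ℝ := c1 * c3 / 2 with ha
  have ha0 : 0 < a := by positivity
  set c5 : ℝ := min (a / C4) (1 / 2) with hc5
  have hc50 : 0 < c5 := lt_min (by positivity) (by norm_num)
  have hc5a : C4 * c5 ≤ a := by
    have := min_le_left (a / C4) (1 / 2)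
    rw [← hc5, le_div_iff₀ hC4] at this
    linarith
  have hc5h : c5 ≤ 1 / 2 := min_le_right _ _
  -- `Y ^ (3/4)` is large
  have ev1 : ∀ᶠ X : ℕ in atTop, (3 * (X : ℝ)) ^ (4 / 5 : ℝ) ≤ c3 * (X / Real.log X) := by
    have h1 := tendsto_natCast_atTop_atTop (R := ℝ) |>.eventually
      ((isLittleO_log_rpow_atTop (by norm_num : (0 : ℝ) < 1 / 5)).bound
        (by positivity : (0 : ℝ) < c3 / 3 ^ (4 / 5 : ℝ)))
    filter_upwards [h1, eventually_ge_atTop 3] with X hX hX1
    have hX1' : (3 : ℝ) ≤ X := by exact_mod_cast hX1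
    have hX0 : (0 : ℝ) < X := by linarith
    have hlog : 0 < Real.log X := Real.log_pos (by linarith)
    rw [Real.norm_eq_abs, Real.norm_eq_abs, abs_of_pos hlog,
      abs_of_nonneg (Real.rpow_nonneg (by linarith) _)] at hX
    rw [Real.mul_rpow (by norm_num) hX0.le, ← mul_div_assoc, le_div_iff₀ hlog]
    have h3 : (0 : ℝ) < 3 ^ (4 / 5 : ℝ) := by positivity
    have h4 := mul_le_mul_of_nonneg_left hX
      (by positivity : (0 : ℝ) ≤ 3 ^ (4 / 5 : ℝ) * (X : ℝ) ^ (4 / 5 : ℝ))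
    have h5 : 3 ^ (4 / 5 : ℝ) * (X : ℝ) ^ (4 / 5 : ℝ) *
        (c3 / 3 ^ (4 / 5 : ℝ) * (X : ℝ) ^ (1 / 5 : ℝ)) = c3 * X := by
      have h6 : (X : ℝ) ^ (4 / 5 : ℝ) * (X : ℝ) ^ (1 / 5 : ℝ) = X := by
        rw [← Real.rpow_add hX0]
        norm_num
      have h7 : (3 : ℝ) ^ (4 / 5 : ℝ) * (c3 / 3 ^ (4 / 5 : ℝ)) = c3 := by
        field_simp
      calc 3 ^ (4 / 5 : ℝ) * (X : ℝ) ^ (4 / 5 : ℝ) *
          (c3 / 3 ^ (4 / 5 : ℝ) * (X : ℝ) ^ (1 / 5 : ℝ)) =
          (3 ^ (4 / 5 : ℝ) * (c3 / 3 ^ (4 / 5 : ℝ))) *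
            ((X : ℝ) ^ (4 / 5 : ℝ) * (X : ℝ) ^ (1 / 5 : ℝ)) := by ring
        _ = c3 * X := by rw [h6, h7]
    rw [h5] at h4
    exact h4
  -- `X/log² X` is large
  have ev2 : ∀ᶠ X : ℕ in atTop, 1 ≤ a * (X / Real.log X ^ 2) := by
    have h1 := tendsto_natCast_atTop_atTop.eventually (PairsM.small_terms (1 / a) (by positivity))
    filter_upwards [h1, eventually_ge_atTop 3] with X hX hX1
    have hX1' : (3 : ℝ) ≤ X := by exact_mod_cast hX1
    have hlog : 0 < Real.log X := Real.log_pos (by linarith)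
    rw [← mul_div_assoc, le_div_iff₀ (by positivity), one_mul]
    have h2 : 1 / a * Real.log X ^ 2 ≤ X := by
      refine le_trans (mul_le_mul_of_nonneg_right ?_ (by positivity)) hX
      have h3 : 1 ≤ (X : ℝ) ^ (1 / 2 : ℝ) := Real.one_le_rpow (by linarith) (by norm_num)
      have h4 : 1 / a * 1 ≤ 1 / a * (1 + Real.log X) * (X : ℝ) ^ (1 / 2 : ℝ) := by
        rw [mul_assoc]
        refine mul_le_mul_of_nonneg_left ?_ (by positivity)
        nlinarith
      have h5 : 0 ≤ (X : ℝ) ^ (1 / 4 : ℝ) := by positivity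
      linarith
    rw [div_mul_eq_mul_div, one_mul, div_le_iff₀ ha0] at h2
    linarith
  -- `g X` is large
  have ev3 : ∀ᶠ X : ℕ in atTop, ∀ z : ℝ, 2 ≤ z → z ≤ ((g X : ℕ) : ℝ) ^ (3 / 4 : ℝ) →
      c1 * ((g X : ℕ) / Real.log z) ≤ (((Icc 1 (g X)).filter (TT z)).card : ℝ) := by
    have h1 : Tendsto g atTop atTop := by
      refine tendsto_atTop_atTop.2 (fun b => ?_)
      refine ⟨Nat.nth NR b, fun m hm => ?_⟩
      refine le_trans ?_ (g_mono hm)
      unfold g
      rw [Nat.count_nth_succ_of_infinite NR_inf]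
      omega
    exact h1.eventually hidx
  have evX := ((((hg.and hgap).and ev1).and ev2).and ev3).and (eventually_ge_atTop 100)
  obtain ⟨X₀, hX₀⟩ := eventually_atTop.1 evX
  refine ⟨min (a * c5 / 12) (c5 / 2), lt_min (by positivity) (by positivity), ?_⟩
  set c : ℝ := min (a * c5 / 12) (c5 / 2) with hc
  have hcc5 : c ≤ c5 / 2 := min_le_right _ _
  have hc0 : 0 < c := lt_min (by positivity) (by positivity)
  filter_upwards [eventually_ge_atTop (3 * X₀ + 1000)] with N hN z hz hzN k hk hkz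
  have hN1000 : 1000 ≤ N := by omega
  have hN1 : (1000 : ℝ) ≤ N := by exact_mod_cast hN1000
  have hN0 : (0 : ℝ) < N := by linarith
  have hk1 : (1 : ℝ) ≤ k := by exact_mod_cast hk
  have hkN : N ≤ k * N := Nat.le_mul_of_pos_left N hk
  obtain ⟨X, hX⟩ : ∃ X, X = k * N / 2 := ⟨_, rfl⟩
  have hX2 : 2 * X ≤ k * N := by omega
  have hX3 : k * N ≤ 3 * X := by omega
  have hXX₀ : X₀ ≤ X := by omega
  obtain ⟨⟨⟨⟨⟨g1, g2⟩, g3⟩, g4⟩, g5⟩, g6⟩ := hX₀ X hXX₀
  have hX3' : (k : ℝ) * N ≤ 3 * X := by exact_mod_cast hX3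
  have hNX : (N : ℝ) ≤ 3 * X := by exact_mod_cast hkN.trans hX3
  have hX100 : (100 : ℝ) ≤ X := by exact_mod_cast g6
  have hXpos : (0 : ℝ) < X := by linarith
  have hlX : 0 < Real.log X := Real.log_pos (by linarith)
  have hlz : 0 < Real.log z := Real.log_pos (by linarith)
  have hlz2 : 1 / 2 ≤ Real.log z := by
    have h1 := Real.log_le_log (by norm_num) hz
    have h2 := Real.log_two_gt_d9
    linarith
  -- `z ≤ (g X)^(3/4)`
  have hgX : (3 * (X : ℝ)) ^ (4 / 5 : ℝ) ≤ (g X : ℝ) := g3.trans g1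
  have hzY : z ≤ ((g X : ℕ) : ℝ) ^ (3 / 4 : ℝ) := by
    refine hzN.trans ?_
    have h1 : (N : ℝ) ^ (3 / 5 : ℝ) ≤ (3 * (X : ℝ)) ^ (3 / 5 : ℝ) :=
      Real.rpow_le_rpow hN0.le hNX (by norm_num)
    refine h1.trans ?_
    have h2 : (3 * (X : ℝ)) ^ (3 / 5 : ℝ) = ((3 * (X : ℝ)) ^ (4 / 5 : ℝ)) ^ (3 / 4 : ℝ) := by
      rw [← Real.rpow_mul (by positivity)]
      norm_num
    rw [h2]
    exact Real.rpow_le_rpow (by positivity) hgX (by norm_num)
  have hzX : Real.log z ≤ Real.log X := by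
    have h1 : z ≤ (X : ℝ) := by
      refine hzN.trans ?_
      have h1 : (N : ℝ) ^ (3 / 5 : ℝ) ≤ (3 * (X : ℝ)) ^ (3 / 5 : ℝ) :=
        Real.rpow_le_rpow hN0.le hNX (by norm_num)
      refine h1.trans ?_
      have h2 : (3 * (X : ℝ)) ^ (3 / 5 : ℝ) ≤ ((X : ℝ) ^ (5 / 3 : ℝ)) ^ (3 / 5 : ℝ) := by
        refine Real.rpow_le_rpow (by positivity) ?_ (by norm_num)
        have h3 : (X : ℝ) ^ (5 / 3 : ℝ) = X * (X : ℝ) ^ (2 / 3 : ℝ) := by
          nth_rewrite 2 [← Real.rpow_one (X : ℝ)]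
          rw [← Real.rpow_add hXpos]
          norm_num
        rw [h3, mul_comm 3]
        refine mul_le_mul_of_nonneg_left ?_ hXpos.le
        have h4 : (3 : ℝ) ≤ (100 : ℝ) ^ (1 / 2 : ℝ) := by
          rw [← Real.sqrt_eq_rpow]
          rw [Real.le_sqrt (by norm_num) (by norm_num)]
          norm_num
        have h5 : (100 : ℝ) ^ (1 / 2 : ℝ) ≤ (X : ℝ) ^ (1 / 2 : ℝ) :=
          Real.rpow_le_rpow (by norm_num) hX100 (by norm_num)
        have h6 : (X : ℝ) ^ (1 / 2 : ℝ) ≤ (X : ℝ) ^ (2 / 3 : ℝ) :=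
          Real.rpow_le_rpow_of_exponent_le (by linarith) (by norm_num)
        linarith
      rw [← Real.rpow_mul hXpos.le] at h2
      norm_num at h2
      exact h2
    exact Real.log_le_log (by linarith) h1
  have hT := g5 z hz hzY
  -- the number of good indices
  have hT2 : 2 * a * (X / (Real.log X * Real.log z)) ≤
      (((Icc 1 (g X)).filter (TT z)).card : ℝ) := by
    refine le_trans ?_ hT
    have h1 : c1 * (c3 * (X / Real.log X) / Real.log z) ≤ c1 * ((g X : ℕ) / Real.log z) :=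
      mul_le_mul_of_nonneg_left (div_le_div_of_nonneg_right g1 hlz.le) hc1.le
    refine le_trans (le_of_eq ?_) h1
    rw [ha]
    field_simp
  set x : ℝ := c5 * (Real.log X / Real.log z) with hx
  have hx0 : 0 < x := by positivity
  set h : ℕ := max 4 ⌊x⌋₊ with hh
  have h4 : 4 ≤ h := le_max_left _ _
  have hxX : x ≤ Real.log X := by
    have h1 : Real.log X / Real.log z ≤ 2 * Real.log X := by
      rw [div_le_iff₀ hlz]
      have := mul_le_mul_of_nonneg_left hlz2 hlX.le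
      linarith
    have h2 := mul_le_mul hc5h h1 (by positivity) (by norm_num)
    linarith
  have hlXX : Real.log X ≤ X := (Real.log_le_sub_one_of_pos hXpos).trans (by linarith)
  have hhX : h ≤ X := by
    refine max_le (by omega) ?_
    have h1 : ((⌊x⌋₊ : ℕ) : ℝ) ≤ X := (Nat.floor_le hx0.le).trans (hxX.trans hlXX)
    exact_mod_cast h1
  have hhx : x / 2 ≤ h := by
    rcases le_or_gt x 4 with h1 | h1
    · have : (4 : ℝ) ≤ h := by exact_mod_cast h4
      linarith
    · have h2 : ((⌊x⌋₊ : ℕ) : ℝ) ≤ h := by exact_mod_cast le_max_right 4 ⌊x⌋₊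
      have h3 := Nat.lt_floor_add_one x
      linarith
  -- the lower bound for `AA`
  have hA := cardA z X h
  have hA' : a * (X / (Real.log X * Real.log z)) ≤ ((AA z X h).card : ℝ) := by
    have h0 : (((Icc 1 (g X)).filter (TT z)).card : ℝ) ≤ ((AA z X h).card : ℝ) +
        (((range (X + 1)).filter (fun u => NR u ∧ ∃ v, u < v ∧ v < u + h ∧ NR v)).card : ℝ) := by
      exact_mod_cast hA
    have h1 : (((range (X + 1)).filter (fun u => NR u ∧ ∃ v, u < v ∧ v < u + h ∧ NR v)).card : ℝ) ≤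
        a * (X / (Real.log X * Real.log z)) := by
      rcases le_or_gt ⌊x⌋₊ 4 with h2 | h2
      · have h3 : h = 4 := max_eq_left h2
        rw [h3]
        have h5 := sg4 X
        have h6 : (((range (X + 1)).filter
            (fun u => NR u ∧ ∃ v, u < v ∧ v < u + 4 ∧ NR v)).card : ℝ) ≤ 1 := by exact_mod_cast h5
        refine h6.trans (g4.trans (mul_le_mul_of_nonneg_left ?_ ha0.le))
        refine div_le_div_of_nonneg_left hXpos.le (by positivity) ?_
        rw [sq]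
        exact mul_le_mul_of_nonneg_left hzX hlX.le
      · have h3 : h = ⌊x⌋₊ := max_eq_right h2.le
        refine (g2 h (by omega) hhX).trans ?_
        have h5 : (h : ℝ) ≤ x := by
          rw [h3]
          exact Nat.floor_le hx0.le
        have h6 : C4 * h * (X / Real.log X ^ 2) ≤ C4 * x * (X / Real.log X ^ 2) :=
          mul_le_mul_of_nonneg_right (mul_le_mul_of_nonneg_left h5 hC4.le) (by positivity)
        refine h6.trans ?_
        have h7 : C4 * x * (X / Real.log X ^ 2) =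
            (C4 * c5) * (X / (Real.log X * Real.log z)) := by
          rw [hx]
          field_simp
        rw [h7]
        exact mul_le_mul_of_nonneg_right hc5a (by positivity)
    linarith
  -- `k ≤ h`
  have hkh : k ≤ h := by
    rcases hkz with h1 | h1
    · exact h1.trans h4
    · refine le_trans ?_ (le_max_right _ _)
      refine Nat.le_floor ?_
      have h2 : Real.log N ≤ 2 * Real.log X := by
        have h3 : (N : ℝ) ≤ (X : ℝ) ^ 2 := by nlinarith
        have h5 := Real.log_le_log hN0 h3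
        rw [Real.log_pow] at h5
        exact_mod_cast h5
      rw [hx, ← mul_div_assoc, le_div_iff₀ hlz]
      have h3 : c * Real.log N ≤ c5 / 2 * (2 * Real.log X) :=
        mul_le_mul hcc5 h2 (Real.log_nonneg (by linarith)) (by positivity)
      linarith
  have hdiv : (h : ℝ) / (2 * k) ≤ ((h / k : ℕ) : ℝ) := by
    have h1 : h < k * (h / k + 1) := Nat.lt_mul_div_succ h (by omega)
    have h2 : 1 ≤ h / k := (Nat.one_le_div_iff (by omega)).2 hkh
    have h3 : (h : ℝ) < k * (((h / k : ℕ) : ℝ) + 1) := by exact_mod_cast h1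
    have h5 : (1 : ℝ) ≤ ((h / k : ℕ) : ℝ) := by exact_mod_cast h2
    rw [div_le_iff₀ (by positivity)]
    nlinarith
  have hfin := comb z hk hX2 hhX
  have hfin' : ((AA z X h).card : ℝ) * ((h / k : ℕ) : ℝ) ≤
      (((Icc 1 N).filter (fun n => TT z (g (k * n)))).card : ℝ) := by exact_mod_cast hfin
  refine le_trans ?_ hfin'
  have h10 : a * (X / (Real.log X * Real.log z)) * (x / 2 / (2 * k)) ≤
      ((AA z X h).card : ℝ) * ((h / k : ℕ) : ℝ) := by
    refine mul_le_mul hA' (le_trans ?_ hdiv) (by positivity) (by positivity)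
    exact div_le_div_of_nonneg_right hhx (by positivity)
  refine le_trans ?_ h10
  have h11 : a * (X / (Real.log X * Real.log z)) * (x / 2 / (2 * k)) =
      a * c5 / 4 * (X / k / Real.log z ^ 2) := by
    rw [hx]
    field_simp
    ring
  rw [h11]
  have h12 : (N : ℝ) / 3 ≤ X / k := by
    rw [div_le_div_iff₀ (by norm_num) (by linarith)]
    linarith
  have h13 : c * (N / Real.log z ^ 2) ≤ a * c5 / 12 * (N / Real.log z ^ 2) :=
    mul_le_mul_of_nonneg_right (min_le_left _ _) (by positivity)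
  refine h13.trans ?_
  have h14 : a * c5 / 12 * (N / Real.log z ^ 2) = a * c5 / 4 * (N / 3 / Real.log z ^ 2) := by ring
  rw [h14]
  refine mul_le_mul_of_nonneg_left ?_ (by positivity)
  exact div_le_div_of_nonneg_right h12 (by positivity)

end Pool.Agent.MP7d3540
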