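import Mathlib

/-!
# MP_7d3540_nt: the counting function `G` and the norms of the prime ideals of `ℤ[i]`
-/

set_option autoImplicit false

namespace Pool.Agent.MP7d3540

open Finset
open scoped Classical

/-- `G(x) = π(√x) + #{p prime : √x < p ≤ x, p ≢ 3 (mod 4)}` -/
noncomputable def G (x : ℝ) : ℕ :=
  Nat.primeCounting ⌊√x⌋₊ +
    ((range (⌊x⌋₊ + 1)).filter (fun p : ℕ => p.Prime ∧ √x < (p : ℝ) ∧ p % 4 ≠ 3)).card

/-- the norms of the prime ideals -/
def NR (u : ℕ) : Prop := u = 2 ∨ (u.Prime ∧ u % 4 = 1) ∨ ∃ q : ℕ, q.Prime ∧ q % 4 = 3 ∧ u = q * q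

/-- the number of norms `≤ m` -/
noncomputable def g (m : ℕ) : ℕ := Nat.count NR (m + 1)

lemma g_eq (m : ℕ) : g m = ((range (m + 1)).filter NR).card := Nat.count_eq_card_filter_range _ _

/-- `G` counts norms. -/
theorem G_nat (m : ℕ) : G (m : ℝ) = g m := by
  have hs : ⌊√(m : ℝ)⌋₊ = Nat.sqrt m := Real.nat_floor_real_sqrt_eq_nat_sqrt
  have hlt : ∀ p : ℕ, √(m : ℝ) < (p : ℝ) ↔ Nat.sqrt m < p := by
    intro p
    rw [← hs, Nat.floor_lt (Real.sqrt_nonneg _)]
  set s := Nat.sqrt m with hsd
  have hsm : s ≤ m := Nat.sqrt_le_self m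
  have h1 : G (m : ℝ) = ((range (s + 1)).filter Nat.Prime).card +
      ((range (m + 1)).filter (fun p : ℕ => p.Prime ∧ s < p ∧ p % 4 ≠ 3)).card := by
    unfold G
    rw [hs, Nat.floor_natCast]
    congr 1
    · rw [Nat.primeCounting, Nat.primeCounting', Nat.count_eq_card_filter_range]
    · congr 1
      refine filter_congr (fun p _ => ?_)
      rw [hlt p]
  have h2 : ((range (s + 1)).filter Nat.Prime).card =
      ((range (s + 1)).filter (fun p : ℕ => p.Prime ∧ p % 4 = 3)).card +
      ((range (s + 1)).filter (fun p : ℕ => p.Prime ∧ p % 4 ≠ 3)).card := by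
    rw [← card_union_of_disjoint]
    · congr 1
      ext p
      simp only [mem_union, mem_filter, mem_range]
      tauto
    · rw [disjoint_left]
      intro p hp hp'
      rw [mem_filter] at hp hp'
      exact hp'.2.2 hp.2.2
  have h3 : ((range (m + 1)).filter (fun p : ℕ => p.Prime ∧ p % 4 ≠ 3)).card =
      ((range (s + 1)).filter (fun p : ℕ => p.Prime ∧ p % 4 ≠ 3)).card +
      ((range (m + 1)).filter (fun p : ℕ => p.Prime ∧ s < p ∧ p % 4 ≠ 3)).card := by
    rw [← card_union_of_disjoint]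
    · congr 1
      ext p
      simp only [mem_union, mem_filter, mem_range]
      constructor
      · rintro ⟨ha, hb, hc⟩
        rcases Nat.lt_or_ge s p with h | h
        · exact Or.inr ⟨ha, hb, h, hc⟩
        · exact Or.inl ⟨by omega, hb, hc⟩
      · rintro (⟨ha, hb, hc⟩ | ⟨ha, hb, _, hc⟩)
        · exact ⟨by omega, hb, hc⟩
        · exact ⟨ha, hb, hc⟩
    · rw [disjoint_left]
      intro p hp hp'
      rw [mem_filter, mem_range] at hp hp'
      omega
  have h4 : ((range (s + 1)).filter (fun p : ℕ => p.Prime ∧ p % 4 = 3)).card =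
      ((range (m + 1)).filter (fun u => ∃ q : ℕ, q.Prime ∧ q % 4 = 3 ∧ u = q * q)).card := by
    refine card_bij (fun q _ => q * q) ?_ ?_ ?_
    · intro q hq
      rw [mem_filter, mem_range] at hq
      rw [mem_filter, mem_range]
      refine ⟨?_, q, hq.2.1, hq.2.2, rfl⟩
      have : q ≤ s := by omega
      have h5 : q * q ≤ m := Nat.le_sqrt.1 this
      omega
    · intro a _ b _ h
      exact Nat.mul_self_inj.1 h
    · intro u hu
      rw [mem_filter, mem_range] at hu
      obtain ⟨hu1, q, hq1, hq2, rfl⟩ := hu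
      refine ⟨q, ?_, rfl⟩
      rw [mem_filter, mem_range]
      have : q ≤ s := Nat.le_sqrt.2 (by omega)
      exact ⟨by omega, hq1, hq2⟩
  have h5 : ((range (m + 1)).filter NR).card =
      ((range (m + 1)).filter (fun p : ℕ => p.Prime ∧ p % 4 ≠ 3)).card +
      ((range (m + 1)).filter (fun u => ∃ q : ℕ, q.Prime ∧ q % 4 = 3 ∧ u = q * q)).card := by
    rw [← card_union_of_disjoint]
    · congr 1
      ext u
      simp only [mem_union, mem_filter, mem_range, NR]
      constructor
      · rintro ⟨ha, rfl | ⟨hb, hc⟩ | h⟩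
        · exact Or.inl ⟨ha, Nat.prime_two, by norm_num⟩
        · exact Or.inl ⟨ha, hb, by omega⟩
        · exact Or.inr ⟨ha, h⟩
      · rintro (⟨ha, hb, hc⟩ | ⟨ha, h⟩)
        · refine ⟨ha, ?_⟩
          rcases hb.eq_two_or_odd with h2 | h2
          · exact Or.inl h2
          · exact Or.inr (Or.inl ⟨hb, by omega⟩)
        · exact ⟨ha, Or.inr (Or.inr h)⟩
    · rw [disjoint_left]
      intro u hu hu'
      rw [mem_filter] at hu hu'
      obtain ⟨q, hq, _, rfl⟩ := hu'.2
      exact Nat.not_prime_mul hq.ne_one hq.ne_one hu.2.1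
  rw [h1, g_eq, h5, h2, h3, h4]
  ring

lemma NR_mod {u : ℕ} (h : NR u) : u = 2 ∨ (5 ≤ u ∧ u % 4 = 1) := by
  rcases h with h | ⟨h1, h2⟩ | ⟨q, h1, h2, rfl⟩
  · exact Or.inl h
  · refine Or.inr ⟨?_, h2⟩
    have := h1.two_le
    by_contra h3
    have h4 : u = 2 ∨ u = 3 ∨ u = 4 := by omega
    rcases h4 with rfl | rfl | rfl <;> omega
  · refine Or.inr ⟨?_, ?_⟩
    · have := h1.two_le
      have h3 : 3 ≤ q := by omega
      nlinarith
    · rw [Nat.mul_mod, h2]

lemma NR_inf : {u | NR u}.Infinite := by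
  rw [Set.infinite_iff_exists_gt]
  intro n
  obtain ⟨p, hp, hn, hm⟩ := Nat.exists_prime_gt_modEq_one n (by norm_num : (4 : ℕ) ≠ 0)
  refine ⟨p, Or.inr (Or.inl ⟨hp, ?_⟩), hn⟩
  exact hm

lemma g_mono {a b : ℕ} (h : a ≤ b) : g a ≤ g b := Nat.count_monotone NR (by omega)

/-- `g` is constant on the norm-free intervals -/
lemma g_const {u m : ℕ} (hum : u ≤ m) (h : ∀ v, u < v → v ≤ m → ¬ NR v) : g m = g u := by
  induction m, hum using Nat.le_induction with
  | base => rfl
  | succ m hm ih =>
    have h1 : g (m + 1) = g m := by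
      unfold g
      rw [Nat.count_succ NR (m + 1), if_neg (h (m + 1) (by omega) le_rfl), add_zero]
    rw [h1]
    exact ih (fun v h1 h2 => h v h1 (by omega))

/-- the number of norms `u ≤ X` with `g u ∈ T` -/
lemma index_card (T : ℕ → Prop) (X : ℕ) :
    ((Icc 1 (g X)).filter T).card ≤ ((range (X + 1)).filter (fun u => NR u ∧ T (g u))).card := by
  refine card_le_card_of_injOn (fun i => Nat.nth NR (i - 1)) ?_ ?_
  · intro i hi
    rw [mem_coe, mem_filter, mem_Icc] at hi
    obtain ⟨⟨h1, h2⟩, h3⟩ := hi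
    rw [mem_coe, mem_filter, mem_range]
    have h4 : Nat.nth NR (i - 1) < X + 1 := Nat.nth_lt_of_lt_count (by unfold g at h2; omega)
    refine ⟨h4, Nat.nth_mem_of_infinite NR_inf _, ?_⟩
    have h5 : g (Nat.nth NR (i - 1)) = i := by
      unfold g
      rw [Nat.count_nth_succ_of_infinite NR_inf]
      omega
    rw [h5]
    exact h3
  · intro i hi j hj h
    rw [mem_coe, mem_filter, mem_Icc] at hi hj
    have := Nat.nth_injective NR_inf h
    omega

/-- the number of norms is at most `N - 1` up to `4 N` -/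
lemma g_le {N : ℕ} (hN : 6 ≤ N) : g (4 * N) ≤ N := by
  rw [g_eq]
  have h1 : (range (4 * N + 1)).filter NR ⊆
      insert 2 (((range N).erase 5).image (fun j => 4 * j + 1)) := by
    intro u hu
    rw [mem_filter, mem_range] at hu
    rw [mem_insert, mem_image]
    rcases NR_mod hu.2 with h | ⟨h1, h2⟩
    · exact Or.inl h
    · refine Or.inr ⟨u / 4, ?_, by omega⟩
      rw [mem_erase, mem_range]
      refine ⟨?_, by omega⟩
      intro h3
      have h4 : u = 21 := by omega
      rw [h4] at hu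
      rcases hu.2 with h | ⟨h, _⟩ | ⟨q, _, _, h⟩
      · omega
      · revert h; norm_num
      · have : q ≤ 4 := by nlinarith
        interval_cases q <;> omega
  refine (card_le_card h1).trans ((card_insert_le _ _).trans ?_)
  have h2 := card_image_le (s := (range N).erase 5) (f := fun j => 4 * j + 1)
  rw [card_erase_of_mem (mem_range.2 (by omega)), card_range] at h2
  omega

end Pool.Agent.MP7d3540
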