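import Pool.Agent.Lib.MP_3efbeb_nt.SV.Sieve
import Pool.Agent.Lib.MP_391708_nt.QPA.Wmer
import Pool.Agent.Lib.MP_391708_nt.QPA.WBa

/-!
# MP_7d3540_nt: the number of the primes `u ≤ X` with `u + d` prime, uniformly in `d`
-/

set_option autoImplicit false

namespace Pool.Agent.MP7d3540

open Finset Filter Topology
open scoped Classical
open Pool.Agent.Lib.MP391708.QPA (PB Rough rInd Wp SpecFL specWMER)
open Pool.Agent.Lib.MP391708.QPA.FL
open Pool.Agent.Lib.MP_3efbeb_nt.SV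
open Pool.Agent.Lib.MP_3efbeb_nt.SV.SieveM

namespace PairsM

/-- the forms `y`, `y + d` -/
def fa : Fin 2 → ℤ := ![1, 1]
def fb (d : ℕ) : Fin 2 → ℤ := ![0, (d : ℤ)]

lemma form (d : ℕ) (y : ℤ) : ∏ i, (fa i * y + fb d i) = y * (y + d) := by
  simp [fa, fb, Fin.prod_univ_two]

lemma adm {d : ℕ} (hd : Even d) {p : ℕ} (hp : p.Prime) :
    ∃ y : ℤ, ¬ (p : ℤ) ∣ ∏ i, (fa i * y + fb d i) := by
  have hpi : Prime (p : ℤ) := Nat.prime_iff_prime_int.1 hp
  by_contra hc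
  push Not at hc
  have h1 := hc 1
  have h2 := hc 2
  rw [form, one_mul] at h1
  rw [form] at h2
  have e1 : p ∣ 1 + d := by exact_mod_cast h1
  rcases hpi.dvd_or_dvd h2 with h3 | h3
  · have e2 : p ∣ 2 := by exact_mod_cast h3
    have e3 : p = 2 := (Nat.prime_dvd_prime_iff_eq hp Nat.prime_two).1 e2
    subst e3
    obtain ⟨k, hk⟩ := hd
    omega
  · have e2 : p ∣ 2 + d := by exact_mod_cast h3
    have e3 : p ∣ 1 := by
      have := (Nat.dvd_sub e2 e1)
      have e4 : 2 + d - (1 + d) = 1 := by omega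
      rwa [e4] at this
    exact hp.one_lt.ne' (Nat.dvd_one.1 e3)

lemma nu_ge_one {d p : ℕ} (hp : p.Prime) : 1 ≤ nu fa (fb d) p := by
  have : NeZero p := ⟨hp.ne_zero⟩
  rw [nu_eq, Nat.one_le_iff_ne_zero, Finset.card_ne_zero]
  refine ⟨0, mem_filter.2 ⟨mem_univ _, ?_⟩⟩
  simp [SieveM.val, fa, fb, Fin.prod_univ_two]

lemma nu_ge_two {d p : ℕ} (hp : p.Prime) (hd : ¬ p ∣ d) : 2 ≤ nu fa (fb d) p := by
  have : NeZero p := ⟨hp.ne_zero⟩
  have hne : (0 : ZMod p) ≠ -(d : ZMod p) := by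
    intro h
    apply hd
    rw [← ZMod.natCast_eq_zero_iff]
    rw [eq_comm, neg_eq_zero] at h
    exact h
  rw [nu_eq]
  have h2 : ({0, -(d : ZMod p)} : Finset (ZMod p)).card = 2 := Finset.card_pair hne
  refine h2.symm.le.trans (card_le_card ?_)
  intro x hx
  rw [mem_insert, mem_singleton] at hx
  refine mem_filter.2 ⟨mem_univ _, ?_⟩
  rcases hx with rfl | rfl
  · simp [SieveM.val, fa, fb, Fin.prod_univ_two]
  · simp [SieveM.val, fa, fb, Fin.prod_univ_two]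

/-- the local densities -/
noncomputable def gg (d p : ℕ) : ℝ := (nu fa (fb d) p : ℝ) / p

lemma gg_bd {d : ℕ} (hd : Even d) {p : ℕ} (hp : p.Prime) :
    0 ≤ gg d p ∧ gg d p ≤ 2 / (p : ℝ) ∧ gg d p ≤ 2 / 3 := by
  obtain ⟨h1, h2⟩ := nu_prime fa (fb d) hp (adm hd hp)
  have hp0 : (0 : ℝ) < p := by exact_mod_cast hp.pos
  have h1' : (nu fa (fb d) p : ℝ) ≤ 2 := by exact_mod_cast h1
  have h2' : (nu fa (fb d) p : ℝ) + 1 ≤ p := by exact_mod_cast h2
  unfold gg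
  refine ⟨by positivity, div_le_div_of_nonneg_right h1' hp0.le, ?_⟩
  rw [div_le_div_iff₀ hp0 (by norm_num)]
  rcases le_total (p : ℝ) 3 with h3 | h3
  · nlinarith
  · nlinarith

lemma ratio_eq (d : ℕ) (hd : 1 ≤ d) :
    (d : ℝ) / (d.totient : ℝ) = ∏ p ∈ d.primeFactors, (1 - 1 / (p : ℝ))⁻¹ := by
  have h1 : (d.totient : ℝ) = d * ∏ p ∈ d.primeFactors, (1 - 1 / (p : ℝ)) := by
    have h := Nat.totient_eq_mul_prod_factors d
    have h2 := congrArg (Rat.cast : ℚ → ℝ) h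
    push_cast at h2
    rw [h2]
    congr 1
    refine prod_congr rfl (fun p _ => ?_)
    rw [one_div]
  have hd0 : (d : ℝ) ≠ 0 := by
    have : (1 : ℝ) ≤ d := by exact_mod_cast hd
    linarith
  rw [h1, prod_inv_distrib]
  have h3 : (∏ p ∈ d.primeFactors, (1 - 1 / (p : ℝ))) ≠ 0 := by
    rw [prod_ne_zero_iff]
    intro p hp
    have h4 : (2 : ℝ) ≤ p := by exact_mod_cast (Nat.prime_of_mem_primeFactors hp).two_le
    have h5 : 1 / (p : ℝ) ≤ 1 / 2 := one_div_le_one_div_of_le (by norm_num) h4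
    intro h6
    linarith
  field_simp

lemma prod_le {d : ℕ} (hd : 1 ≤ d) (hd2 : Even d) (z : ℝ) :
    ∏ p ∈ PB z, (1 - gg d p) ≤ Wp z ^ 2 * ((d : ℝ) / (d.totient : ℝ)) := by
  have hpp : ∀ p : ℕ, p.Prime → 0 < 1 - 1 / (p : ℝ) := by
    intro p hp
    have h4 : (2 : ℝ) ≤ p := by exact_mod_cast hp.two_le
    have h5 : 1 / (p : ℝ) ≤ 1 / 2 := one_div_le_one_div_of_le (by norm_num) h4
    linarith
  have h1 : ∏ p ∈ PB z, (1 - gg d p) ≤
      ∏ p ∈ PB z, ((1 - 1 / (p : ℝ)) ^ 2 * (if p ∣ d then (1 - 1 / (p : ℝ))⁻¹ else 1)) := by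
    refine prod_le_prod ?_ ?_
    · intro p hp
      have := (gg_bd hd2 (mem_PB.1 hp).1).2.2
      linarith
    · intro p hp
      have hpr := (mem_PB.1 hp).1
      have hp0 : (0 : ℝ) < p := by exact_mod_cast hpr.pos
      have h3 := hpp p hpr
      split_ifs with h
      · have h2 : (1 : ℝ) ≤ nu fa (fb d) p := by exact_mod_cast nu_ge_one hpr
        have h4 : (1 - 1 / (p : ℝ)) ^ 2 * (1 - 1 / (p : ℝ))⁻¹ = 1 - 1 / (p : ℝ) := by
          field_simp
        rw [h4]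
        unfold gg
        have : 1 / (p : ℝ) ≤ (nu fa (fb d) p : ℝ) / p := div_le_div_of_nonneg_right h2 hp0.le
        linarith
      · have h2 : (2 : ℝ) ≤ nu fa (fb d) p := by exact_mod_cast nu_ge_two hpr h
        unfold gg
        have h4 : 2 / (p : ℝ) ≤ (nu fa (fb d) p : ℝ) / p := div_le_div_of_nonneg_right h2 hp0.le
        have h5 : (2 : ℝ) / p = 2 * (1 / (p : ℝ)) := by ring
        nlinarith [sq_nonneg (1 / (p : ℝ))]
  refine h1.trans ?_
  rw [prod_mul_distrib, prod_pow, ratio_eq d hd]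
  unfold Wp
  refine mul_le_mul_of_nonneg_left ?_ (by positivity)
  rw [← prod_filter]
  have hsub : (PB z).filter (fun p => p ∣ d) ⊆ d.primeFactors := by
    intro p hp
    rw [mem_filter] at hp
    exact Nat.mem_primeFactors.2 ⟨(mem_PB.1 hp.1).1, hp.2, by omega⟩
  rw [← prod_sdiff hsub]
  refine le_mul_of_one_le_left ?_ ?_
  · refine prod_nonneg (fun p hp => ?_)
    exact inv_nonneg.2 (hpp p (mem_PB.1 (mem_filter.1 hp).1).1).le
  · refine Finset.one_le_prod ?_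
    intro p hp
    have h3 := hpp p (Nat.prime_of_mem_primeFactors (mem_sdiff.1 hp).1)
    rw [one_le_inv₀ h3]
    have : 0 ≤ 1 / (p : ℝ) := by positivity
    linarith

/-- the sieve, before the choice of `z` -/
lemma pair_sieve : ∃ (E : ℕ) (C : ℝ), 0 < E ∧ 0 < C ∧ ∀ (X : ℕ) (z : ℝ), 2 ≤ z → ∀ d : ℕ, 1 ≤ d →
    Even d → (((Icc 1 X).filter (fun u : ℕ => u.Prime ∧ (u + d).Prime)).card : ℝ) ≤
      C * ((d : ℝ) / (d.totient : ℝ)) * X / Real.log z ^ 2 + z + 1 +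
        C * (1 + Real.log z) * (z ^ E) ^ 2 := by
  obtain ⟨C0, hC0, hFL⟩ := Pool.Agent.Lib.MP391708.QPA.specFL
  obtain ⟨C1, hC1, hW⟩ := specWMER
  obtain ⟨b, hb⟩ : ∃ b : ℕ, C0 * Real.exp (-(b : ℝ)) ≤ 1 := by
    obtain ⟨b, hb⟩ := exists_nat_ge C0
    refine ⟨b, ?_⟩
    rw [Real.exp_neg]
    have h1 : C0 ≤ Real.exp b := hb.trans (by linarith [Real.add_one_le_exp (b : ℝ)])
    rw [mul_inv_le_iff₀ (Real.exp_pos _)]
    linarith
  refine ⟨8 * b + 16, 2 * C1 ^ 2 + C0, by omega, by positivity, fun X z hz d hd hd2 => ?_⟩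
  have hz0 : (0 : ℝ) < z := by linarith
  have hlz : 0 < Real.log z := Real.log_pos (by linarith)
  set E := 8 * b + 16 with hE
  set v : ℕ → ℕ := fun y => (∏ i, (fa i * (y : ℤ) + fb d i)).natAbs with hv
  have hv2 : ∀ y, v y = y * (y + d) := by
    intro y
    rw [hv]
    simp only
    rw [form, ← Nat.cast_add, ← Nat.cast_mul, Int.natAbs_natCast]
  have hfl := hFL b z hz (Icc 1 X) v (fun _ => 1) X (gg d) (Nat.cast_nonneg _)
    (fun _ _ => zero_le_one) (fun p hp => gg_bd hd2 hp)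
  set PG := ∏ p ∈ PB z, (1 - gg d p) with hPG
  have hPG0 : 0 ≤ PG := by
    refine prod_nonneg fun p hp => ?_
    have h1 := (gg_bd hd2 (mem_PB.1 hp).1).2.2
    linarith
  have hrem : ∑ δ ∈ (Icc 1 ⌊z ^ E⌋₊).filter
      (fun δ => Squarefree δ ∧ ∀ p : ℕ, p.Prime → p ∣ δ → (p : ℝ) < z),
      |(∑ i ∈ (Icc 1 X).filter (fun i => δ ∣ v i), (1 : ℝ)) -
        X * ∏ p ∈ δ.primeFactors, gg d p| ≤ (z ^ E) ^ 2 := by
    have h1 : ∀ δ ∈ (Icc 1 ⌊z ^ E⌋₊).filter
        (fun δ => Squarefree δ ∧ ∀ p : ℕ, p.Prime → p ∣ δ → (p : ℝ) < z),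
        |(∑ i ∈ (Icc 1 X).filter (fun i => δ ∣ v i), (1 : ℝ)) -
          X * ∏ p ∈ δ.primeFactors, gg d p| ≤ z ^ E := by
      intro δ hδ
      rw [mem_filter, mem_Icc] at hδ
      have e1 : ∏ p ∈ δ.primeFactors, gg d p = (nu fa (fb d) δ : ℝ) / δ := by
        unfold gg
        rw [prod_div_distrib, nu_squarefree fa (fb d) hδ.2.1]
        push_cast
        congr 1
        have h9 := Nat.prod_primeFactors_of_squarefree hδ.2.1
        rw [← Nat.cast_prod, h9]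
      have e2 : (Icc 1 X).filter (fun i => δ ∣ v i) = (Icc 1 X).filter
          (fun y : ℕ => (δ : ℤ) ∣ ∏ i, (fa i * (y : ℤ) + fb d i)) := by
        refine filter_congr (fun y _ => ?_)
        rw [hv]
        exact Int.natCast_dvd.symm
      rw [sum_const, nsmul_eq_mul, mul_one, e1, e2]
      refine (card_roots fa (fb d) δ X (by omega)).trans ?_
      exact (Nat.le_floor_iff (by positivity)).1 hδ.1.2
    refine (sum_le_card_nsmul _ _ _ h1).trans ?_
    rw [nsmul_eq_mul, sq]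
    refine mul_le_mul_of_nonneg_right ?_ (by positivity)
    have h2 := card_filter_le (Icc 1 ⌊z ^ E⌋₊)
      (fun δ => Squarefree δ ∧ ∀ p : ℕ, p.Prime → p ∣ δ → (p : ℝ) < z)
    rw [Nat.card_Icc, Nat.add_sub_cancel] at h2
    exact (Nat.cast_le.2 h2).trans (Nat.floor_le (by positivity))
  have hPGle : PG ≤ (C1 / Real.log z) ^ 2 * ((d : ℝ) / (d.totient : ℝ)) := by
    refine (prod_le hd hd2 z).trans (mul_le_mul_of_nonneg_right ?_ (by positivity))
    have h1 : 0 ≤ Wp z := by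
      unfold Wp
      refine prod_nonneg (fun p hp => ?_)
      have h4 : (2 : ℝ) ≤ p := by exact_mod_cast (mem_PB.1 hp).1.two_le
      have h5 : 1 / (p : ℝ) ≤ 1 / 2 := one_div_le_one_div_of_le (by norm_num) h4
      linarith
    exact pow_le_pow_left₀ h1 (hW z hz) 2
  -- the count
  have hcnt : (((Icc 1 X).filter (fun u : ℕ => u.Prime ∧ (u + d).Prime)).card : ℝ) ≤
      (z + 1) + ∑ i ∈ Icc 1 X, (1 : ℝ) * rInd z (v i) := by
    have h1 : (Icc 1 X).filter (fun u : ℕ => u.Prime ∧ (u + d).Prime) ⊆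
        range (⌊z⌋₊ + 1) ∪ (Icc 1 X).filter (fun u => Rough z (v u)) := by
      intro u hu
      rw [mem_filter] at hu
      rw [mem_union, mem_range, mem_filter]
      rcases lt_or_ge (u : ℝ) z with h | h
      · left
        have := Nat.le_floor h.le
        omega
      · right
        refine ⟨hu.1, ?_⟩
        intro p hp hpd
        rw [hv2 u] at hpd
        rcases (Nat.Prime.dvd_mul hp).1 hpd with h2 | h2
        · rw [(Nat.prime_dvd_prime_iff_eq hp hu.2.1).1 h2]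
          exact h
        · rw [(Nat.prime_dvd_prime_iff_eq hp hu.2.2).1 h2]
          push_cast
          have : (0 : ℝ) ≤ d := Nat.cast_nonneg _
          linarith
    have h2 : (((range (⌊z⌋₊ + 1)).card : ℕ) : ℝ) ≤ z + 1 := by
      rw [card_range]
      push_cast
      linarith [Nat.floor_le hz0.le]
    have h3 : ∑ i ∈ Icc 1 X, (1 : ℝ) * rInd z (v i) =
        (((Icc 1 X).filter (fun u => Rough z (v u))).card : ℝ) := by
      rw [card_filter]
      push_cast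
      refine sum_congr rfl (fun i _ => ?_)
      rw [one_mul]
      rfl
    rw [h3]
    have h4 := (card_le_card h1).trans (card_union_le _ _)
    have h5 : (((Icc 1 X).filter (fun u : ℕ => u.Prime ∧ (u + d).Prime)).card : ℝ) ≤
        ((range (⌊z⌋₊ + 1)).card : ℝ) + (((Icc 1 X).filter (fun u => Rough z (v u))).card : ℝ) := by
      exact_mod_cast h4
    linarith
  have hX0 : (0 : ℝ) ≤ X := Nat.cast_nonneg _
  have h6 : ∑ i ∈ Icc 1 X, (1 : ℝ) * rInd z (v i) ≤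
      X * PG + 1 * X * PG + C0 * (1 + Real.log z) * (z ^ E) ^ 2 := by
    have h7 := (abs_le.1 hfl).2
    have h8 : C0 * Real.exp (-(b : ℝ)) * X * PG ≤ 1 * X * PG := by
      refine mul_le_mul_of_nonneg_right (mul_le_mul_of_nonneg_right hb hX0) hPG0
    have h9 := mul_le_mul_of_nonneg_left hrem
      (by positivity : 0 ≤ C0 * (1 + Real.log z))
    linarith
  have h10 : X * PG ≤ X * ((C1 / Real.log z) ^ 2 * ((d : ℝ) / (d.totient : ℝ))) :=
    mul_le_mul_of_nonneg_left hPGle hX0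
  have h11 : (X : ℝ) * ((C1 / Real.log z) ^ 2 * ((d : ℝ) / (d.totient : ℝ))) =
      C1 ^ 2 * ((d : ℝ) / (d.totient : ℝ)) * X / Real.log z ^ 2 := by
    rw [div_pow]
    ring
  have h12 : 0 ≤ C0 * ((d : ℝ) / (d.totient : ℝ)) * X / Real.log z ^ 2 := by positivity
  have h13 : 0 ≤ 2 * C1 ^ 2 * (1 + Real.log z) * (z ^ E) ^ 2 := by positivity
  have h14 : (2 * C1 ^ 2 + C0) * ((d : ℝ) / (d.totient : ℝ)) * X / Real.log z ^ 2 =
      2 * (C1 ^ 2 * ((d : ℝ) / (d.totient : ℝ)) * X / Real.log z ^ 2) +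
        C0 * ((d : ℝ) / (d.totient : ℝ)) * X / Real.log z ^ 2 := by ring
  rw [h14, add_mul (2 * C1 ^ 2) C0, add_mul]
  rw [h11] at h10
  linarith

/-- the sizes -/
lemma small_terms (C : ℝ) (hC : 0 < C) : ∀ᶠ X : ℝ in atTop,
    (X ^ (1 / 4 : ℝ) + 1 + C * (1 + Real.log X) * X ^ (1 / 2 : ℝ)) * Real.log X ^ 2 ≤ X := by
  have h1 : ∀ᶠ X : ℝ in atTop, Real.log X ≤ X ^ (1 / 16 : ℝ) := by
    have := (isLittleO_log_rpow_atTop (by norm_num : (0 : ℝ) < 1 / 16)).bound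
      (by norm_num : (0 : ℝ) < 1)
    filter_upwards [this, eventually_ge_atTop 1] with X hX hX1
    rw [one_mul, Real.norm_eq_abs, Real.norm_eq_abs, abs_of_nonneg (Real.log_nonneg hX1),
      abs_of_nonneg (Real.rpow_nonneg (by linarith) _)] at hX
    exact hX
  have h2 : ∀ᶠ X : ℝ in atTop, 2 + 2 * C ≤ X ^ (1 / 16 : ℝ) :=
    (tendsto_rpow_atTop (by norm_num : (0 : ℝ) < 1 / 16)).eventually_ge_atTop _
  filter_upwards [h1, h2, eventually_ge_atTop 1] with X hX1 hX2 hX3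
  have hX0 : 0 ≤ X := by linarith
  set t : ℝ := X ^ (1 / 16 : ℝ) with ht
  have e16 : X = t ^ 16 := by
    rw [ht, ← Real.rpow_natCast, ← Real.rpow_mul hX0]
    norm_num
  have e4 : X ^ (1 / 4 : ℝ) = t ^ 4 := by
    rw [ht, ← Real.rpow_natCast, ← Real.rpow_mul hX0]
    norm_num
  have e8 : X ^ (1 / 2 : ℝ) = t ^ 8 := by
    rw [ht, ← Real.rpow_natCast, ← Real.rpow_mul hX0]
    norm_num
  have hlog0 : 0 ≤ Real.log X := Real.log_nonneg hX3
  have ht1 : 1 ≤ t := by linarith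
  rw [e4, e8]
  have h3 : Real.log X ^ 2 ≤ t ^ 2 := pow_le_pow_left₀ hlog0 hX1 2
  have h4 : t ^ 4 + 1 + C * (1 + Real.log X) * t ^ 8 ≤ (2 + 2 * C) * t ^ 9 := by
    have a1 : t ^ 4 ≤ t ^ 9 := pow_le_pow_right₀ ht1 (by norm_num)
    have a2 : 1 ≤ t ^ 9 := one_le_pow₀ ht1
    have a3 : C * (1 + Real.log X) * t ^ 8 ≤ C * (2 * t) * t ^ 8 := by
      refine mul_le_mul_of_nonneg_right (mul_le_mul_of_nonneg_left (by linarith) hC.le)
        (by positivity)
    have a4 : C * (2 * t) * t ^ 8 = 2 * C * t ^ 9 := by ring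
    linarith
  have h5 : (t ^ 4 + 1 + C * (1 + Real.log X) * t ^ 8) * Real.log X ^ 2 ≤
      (2 + 2 * C) * t ^ 9 * t ^ 2 := mul_le_mul h4 h3 (by positivity) (by positivity)
  refine h5.trans ?_
  rw [e16]
  have h6 : (2 + 2 * C) * t ^ 9 * t ^ 2 ≤ t * t ^ 9 * t ^ 2 :=
    mul_le_mul_of_nonneg_right (mul_le_mul_of_nonneg_right hX2 (by positivity)) (by positivity)
  refine h6.trans ?_
  have h7 : t * t ^ 9 * t ^ 2 = t ^ 12 := by ring
  rw [h7]
  exact pow_le_pow_right₀ ht1 (by norm_num)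

end PairsM

open PairsM in
/-- The number of the primes `u ≤ X` with `u + d` prime. -/
theorem pairs : ∃ C : ℝ, 0 < C ∧ ∀ᶠ X : ℕ in atTop, ∀ d : ℕ, 1 ≤ d → Even d →
    (((Icc 1 X).filter (fun u : ℕ => u.Prime ∧ (u + d).Prime)).card : ℝ) ≤
      C * ((d : ℝ) / (d.totient : ℝ)) * (X / Real.log X ^ 2) := by
  obtain ⟨E, C, hE, hC, h⟩ := pair_sieve
  have hE0 : (0 : ℝ) < E := by exact_mod_cast hE
  have hE1 : (1 : ℝ) ≤ E := by exact_mod_cast hE
  refine ⟨C * (4 * E) ^ 2 + 1, by positivity, ?_⟩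
  have h1 : ∀ᶠ X : ℕ in atTop, (2 : ℝ) ≤ (X : ℝ) ^ (1 / (4 * E) : ℝ) :=
    ((tendsto_rpow_atTop (by positivity : (0 : ℝ) < 1 / (4 * E))).comp
      tendsto_natCast_atTop_atTop).eventually_ge_atTop _
  have h2 := tendsto_natCast_atTop_atTop.eventually (small_terms C hC)
  filter_upwards [h1, h2, eventually_ge_atTop 3] with X hX1 hX2 hX3 d hd hd2
  have hX3' : (3 : ℝ) ≤ X := by exact_mod_cast hX3
  have hX0 : (0 : ℝ) ≤ X := by linarith
  have hlog : 0 < Real.log X := Real.log_pos (by linarith)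
  refine (h X _ hX1 d hd hd2).trans ?_
  set z : ℝ := (X : ℝ) ^ (1 / (4 * E) : ℝ) with hz
  have hlz : Real.log z = Real.log X / (4 * E) := by
    rw [hz, Real.log_rpow (by linarith)]
    ring
  have hzE : z ^ E = (X : ℝ) ^ (1 / 4 : ℝ) := by
    rw [hz, ← Real.rpow_natCast, ← Real.rpow_mul hX0]
    congr 1
    field_simp
  have hzE2 : (z ^ E) ^ 2 = (X : ℝ) ^ (1 / 2 : ℝ) := by
    rw [hzE, ← Real.rpow_natCast, ← Real.rpow_mul hX0]
    norm_num
  have hz4 : z ≤ (X : ℝ) ^ (1 / 4 : ℝ) := by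
    rw [hz]
    refine Real.rpow_le_rpow_of_exponent_le (by linarith) ?_
    exact one_div_le_one_div_of_le (by norm_num) (by linarith)
  have hlzX : Real.log z ≤ Real.log X := by
    rw [hlz]
    exact div_le_self hlog.le (by linarith)
  rw [hzE2, hlz]
  have h3 : z + 1 + C * (1 + Real.log X / (4 * E)) * (X : ℝ) ^ (1 / 2 : ℝ) ≤
      X / Real.log X ^ 2 := by
    rw [le_div_iff₀ (by positivity)]
    refine le_trans (mul_le_mul_of_nonneg_right ?_ (by positivity)) hX2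
    rw [← hlz]
    have h4 : C * (1 + Real.log z) * (X : ℝ) ^ (1 / 2 : ℝ) ≤
        C * (1 + Real.log X) * (X : ℝ) ^ (1 / 2 : ℝ) :=
      mul_le_mul_of_nonneg_right (mul_le_mul_of_nonneg_left (by linarith) hC.le) (by positivity)
    linarith
  have hr : 1 ≤ (d : ℝ) / (d.totient : ℝ) := by
    have h5 : (0 : ℝ) < d.totient := by exact_mod_cast Nat.totient_pos.2 hd
    rw [le_div_iff₀ h5, one_mul]
    exact_mod_cast Nat.totient_le d
  have h6 : X / Real.log X ^ 2 ≤ (d : ℝ) / (d.totient : ℝ) * (X / Real.log X ^ 2) :=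
    le_mul_of_one_le_left (by positivity) hr
  have h7 : C * ((d : ℝ) / (d.totient : ℝ)) * X / (Real.log X / (4 * E)) ^ 2 =
      C * (4 * E) ^ 2 * ((d : ℝ) / (d.totient : ℝ) * (X / Real.log X ^ 2)) := by
    field_simp
  rw [h7]
  have h8 : (C * (4 * E) ^ 2 + 1) * ((d : ℝ) / (d.totient : ℝ)) * (X / Real.log X ^ 2) =
      C * (4 * E) ^ 2 * ((d : ℝ) / (d.totient : ℝ) * (X / Real.log X ^ 2)) +
        (d : ℝ) / (d.totient : ℝ) * (X / Real.log X ^ 2) := by ring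
  rw [h8]
  linarith

end Pool.Agent.MP7d3540
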