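import Pool.Agent.Lib.MP_7d3540_nt.Def
import Pool.Agent.Lib.MP_7d3540_nt.Pairs

/-!
# MP_7d3540_nt: few norms are followed by a short gap
-/

set_option autoImplicit false

namespace Pool.Agent.MP7d3540

open Finset Filter Topology
open scoped Classical

namespace GapsM

/-- the norms `≤ X` with another norm at distance `< h` -/
noncomputable def SG (X h : ℕ) : Finset ℕ :=
  (range (X + 1)).filter (fun u => NR u ∧ ∃ v, u < v ∧ v < u + h ∧ NR v)

/-- the pairs of primes at distance `d` -/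
noncomputable def PP (X d : ℕ) : Finset ℕ :=
  (Icc 1 X).filter (fun u : ℕ => u.Prime ∧ (u + d).Prime)

lemma SG_sub (X h : ℕ) : SG X h ⊆ insert 2 ((range (Nat.sqrt X + 1)).image (fun q => q * q)) ∪
    ((Icc 1 h).filter Even).biUnion (fun d => PP X d ∪
      (range (Nat.sqrt (X + h) + 1)).image (fun q => q * q - d)) := by
  intro u hu
  unfold SG at hu
  rw [mem_filter, mem_range] at hu
  obtain ⟨huX, hu1, v, huv, hvh, hv1⟩ := hu
  rw [mem_union, mem_insert, mem_image, mem_biUnion]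
  rcases NR_mod hu1 with h2 | ⟨h5, h4⟩
  · exact Or.inl (Or.inl h2)
  have hv4 : v % 4 = 1 := by
    rcases NR_mod hv1 with h2 | ⟨_, h4'⟩
    · omega
    · exact h4'
  rcases hu1 with h2 | ⟨hp, _⟩ | ⟨q, hq, _, rfl⟩
  · exact Or.inl (Or.inl h2)
  · right
    refine ⟨v - u, ?_, ?_⟩
    · rw [mem_filter, mem_Icc]
      refine ⟨by omega, ?_⟩
      rw [Nat.even_iff]
      omega
    · rw [mem_union]
      rcases hv1 with h2 | ⟨hp', _⟩ | ⟨q, hq, _, hqv⟩
      · omega
      · left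
        unfold PP
        rw [mem_filter, mem_Icc]
        have e : u + (v - u) = v := by omega
        rw [e]
        exact ⟨by omega, hp, hp'⟩
      · right
        rw [mem_image]
        refine ⟨q, ?_, by omega⟩
        rw [mem_range]
        have : q ≤ Nat.sqrt (X + h) := Nat.le_sqrt.2 (by omega)
        omega
  · left
    right
    refine ⟨q, ?_, rfl⟩
    rw [mem_range]
    have : q ≤ Nat.sqrt X := Nat.le_sqrt.2 (by omega)
    omega

lemma SG_card (X h : ℕ) : ((SG X h).card : ℝ) ≤ 2 + √(X : ℝ) +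
    ∑ d ∈ (Icc 1 h).filter Even, (((PP X d).card : ℝ) + (√((X : ℝ) + h) + 1)) := by
  have hsq : ∀ n : ℕ, ((Nat.sqrt n : ℕ) : ℝ) ≤ √(n : ℝ) := fun n => Real.nat_sqrt_le_real_sqrt
  have h1 := (card_le_card (SG_sub X h)).trans (card_union_le _ _)
  have h2 : (insert 2 ((range (Nat.sqrt X + 1)).image (fun q => q * q))).card ≤
      (Nat.sqrt X + 1) + 1 := by
    refine (card_insert_le _ _).trans (Nat.add_le_add_right (card_image_le.trans ?_) 1)
    rw [card_range]
  have h3 : (((Icc 1 h).filter Even).biUnion (fun d => PP X d ∪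
      (range (Nat.sqrt (X + h) + 1)).image (fun q => q * q - d))).card ≤
      ∑ d ∈ (Icc 1 h).filter Even, ((PP X d).card + (Nat.sqrt (X + h) + 1)) := by
    refine card_biUnion_le.trans (sum_le_sum (fun d _ => ?_))
    refine (card_union_le _ _).trans (Nat.add_le_add_left (card_image_le.trans ?_) _)
    rw [card_range]
  have h4 : ((SG X h).card : ℝ) ≤ (((Nat.sqrt X + 1) + 1 : ℕ) : ℝ) +
      ((∑ d ∈ (Icc 1 h).filter Even, ((PP X d).card + (Nat.sqrt (X + h) + 1)) : ℕ) : ℝ) := by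
    exact_mod_cast h1.trans (Nat.add_le_add h2 h3)
  have h5 : (((Nat.sqrt X + 1) + 1 : ℕ) : ℝ) ≤ 2 + √(X : ℝ) := by
    push_cast
    linarith [hsq X]
  have h6 : ((∑ d ∈ (Icc 1 h).filter Even, ((PP X d).card + (Nat.sqrt (X + h) + 1)) : ℕ) : ℝ) ≤
      ∑ d ∈ (Icc 1 h).filter Even, (((PP X d).card : ℝ) + (√((X : ℝ) + h) + 1)) := by
    push_cast
    refine sum_le_sum (fun d _ => ?_)
    have := hsq (X + h)
    push_cast at this
    linarith
  linarith

end GapsM

open GapsM in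
/-- At most `C h X/log² X` norms `u ≤ X` have another norm in `(u, u + h)`. -/
theorem gaps : ∃ C : ℝ, 0 < C ∧ ∀ᶠ X : ℕ in atTop, ∀ h : ℕ, 1 ≤ h → h ≤ X →
    (((range (X + 1)).filter (fun u => NR u ∧ ∃ v, u < v ∧ v < u + h ∧ NR v)).card : ℝ) ≤
      C * h * (X / Real.log X ^ 2) := by
  obtain ⟨C, hC, hP⟩ := pairs
  obtain ⟨R, hR, hr⟩ := Pool.Agent.Lib.MP391708.QPA.WB.sum_ratio
  refine ⟨C * R + 6, by positivity, ?_⟩
  have h2 := tendsto_natCast_atTop_atTop.eventually (PairsM.small_terms 1 one_pos)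
  filter_upwards [hP, h2, eventually_ge_atTop 3] with X hX hX2 hX3 h hh hhX
  have hX3' : (3 : ℝ) ≤ X := by exact_mod_cast hX3
  have hh1 : (1 : ℝ) ≤ h := by exact_mod_cast hh
  have hhX' : (h : ℝ) ≤ X := by exact_mod_cast hhX
  have hlog : 0 < Real.log X := Real.log_pos (by linarith)
  have hQ : √(X : ℝ) + 1 ≤ X / Real.log X ^ 2 := by
    rw [le_div_iff₀ (by positivity)]
    refine le_trans (mul_le_mul_of_nonneg_right ?_ (by positivity)) hX2
    rw [← Real.sqrt_eq_rpow]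
    have h3 : √(X : ℝ) ≤ 1 * (1 + Real.log X) * √(X : ℝ) := by
      have : 0 ≤ Real.log X * √(X : ℝ) := by positivity
      linarith
    have : 0 ≤ (X : ℝ) ^ (1 / 4 : ℝ) := by positivity
    linarith
  have hQ1 : 0 ≤ X / Real.log X ^ 2 := by positivity
  have hs2 : √((X : ℝ) + h) ≤ 2 * √(X : ℝ) := by
    rw [Real.sqrt_le_left (by positivity), mul_pow, Real.sq_sqrt (by linarith)]
    linarith
  refine (SG_card X h).trans ?_
  have h4 : ∑ d ∈ (Icc 1 h).filter Even, (((PP X d).card : ℝ) + (√((X : ℝ) + h) + 1)) ≤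
      ∑ d ∈ Icc 1 h, (C * ((d : ℝ) / (d.totient : ℝ)) * (X / Real.log X ^ 2) +
        2 * (X / Real.log X ^ 2)) := by
    refine (sum_le_sum (g := fun d : ℕ => (C * ((d : ℝ) / (d.totient : ℝ)) * (X / Real.log X ^ 2) +
        2 * (X / Real.log X ^ 2))) (fun d hd => ?_)).trans
      (sum_le_sum_of_subset_of_nonneg (filter_subset _ _) (fun d _ _ => by positivity))
    rw [mem_filter, mem_Icc] at hd
    have := hX d hd.1.1 hd.2
    have e : ((PP X d).card : ℝ) ≤ C * ((d : ℝ) / (d.totient : ℝ)) * (X / Real.log X ^ 2) := this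
    linarith
  have h40 : ∑ d ∈ Icc 1 h, (C * ((d : ℝ) / (d.totient : ℝ)) * (X / Real.log X ^ 2) +
      2 * (X / Real.log X ^ 2)) =
      C * (∑ d ∈ Icc 1 h, (d : ℝ) / (d.totient : ℝ)) * (X / Real.log X ^ 2) +
        h * (2 * (X / Real.log X ^ 2)) := by
    rw [sum_add_distrib, sum_const, nsmul_eq_mul, Nat.card_Icc, Nat.add_sub_cancel,
      ← sum_mul, ← mul_sum]
  rw [h40] at h4
  have h5 : C * (∑ d ∈ Icc 1 h, (d : ℝ) / (d.totient : ℝ)) * (X / Real.log X ^ 2) ≤
      C * (R * h) * (X / Real.log X ^ 2) :=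
    mul_le_mul_of_nonneg_right (mul_le_mul_of_nonneg_left (hr h) hC.le) hQ1
  have h6 : 2 + √(X : ℝ) ≤ 2 * (X / Real.log X ^ 2) := by
    have : 0 ≤ √(X : ℝ) := Real.sqrt_nonneg _
    linarith
  have h7 : 2 * (X / Real.log X ^ 2) ≤ 2 * (h * (X / Real.log X ^ 2)) := by
    have := mul_le_mul_of_nonneg_right hh1 hQ1
    linarith
  have h8 : (C * R + 6) * h * (X / Real.log X ^ 2) = C * (R * h) * (X / Real.log X ^ 2) +
      6 * (h * (X / Real.log X ^ 2)) := by ring
  rw [h8]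
  have h9 : (h : ℝ) * (2 * (X / Real.log X ^ 2)) = 2 * (h * (X / Real.log X ^ 2)) := by ring
  rw [h9] at h4
  have h10 : 0 ≤ (h : ℝ) * (X / Real.log X ^ 2) := by positivity
  linarith

end Pool.Agent.MP7d3540
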